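import Mathlib

/-!
# Critical points at infinity need not be parallel to the face of the Newton polytope

For every `d ≥ 3` let `Q = (z_0 - 1)^2 + z_1 + … + z_{d-1}`. Its Newton polytope `N(Q)` is a
`d`-dimensional simplex, and the segment `Γ` from `0` to `2 e_0` is a face. The hypersurface `V_Q` is
smooth. The points `(1, s, …, s, - (d - 2) s)` are points of `V_Q`, all critical in the same direction
`[0 : 1 : … : 1 : - (d - 2)]`. For `s → 0` they converge in the toric variety of `N(Q)` to a point of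
the orbit `O_Γ`, but the direction is not parallel to `Γ`.
-/

set_option autoImplicit false

open Filter Topology

namespace Pool.Agent.Results.MP_759130_ag.NotParallel

/-- Laurent polynomials in `d` variables over `ℂ`, given by their coefficients. -/
abbrev Laurent (d : ℕ) : Type := (Fin d → ℤ) →₀ ℂ

variable {d : ℕ}

/-- The value `z ^ a` of a Laurent monomial. -/
noncomputable def mono (z : Fin d → ℂ) (a : Fin d → ℤ) : ℂ := ∏ i, z i ^ a i

/-- The value of the Laurent polynomial `Q` at `z`. -/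
noncomputable def value (Q : Laurent d) (z : Fin d → ℂ) : ℂ := Q.sum fun a c => c * mono z a

/-- The Newton polytope `N(Q)`: the convex hull of the exponents with nonzero coefficients. -/
def newton (Q : Laurent d) : Set (Fin d → ℝ) :=
  convexHull ℝ {x | ∃ a : Fin d → ℤ, Q a ≠ 0 ∧ ∀ i, x i = a i}

/-- The vector of the logarithmic derivatives `z_i ∂Q / ∂z_i` at the point `z`. -/
noncomputable def logGrad (Q : Laurent d) (z : Fin d → ℂ) : Fin d → ℂ :=
  fun i => z i * deriv (fun t => value Q (Function.update z i t)) (z i)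

/-- The point `z` of `(ℂ^*)^d` lies on `V_Q`, the gradient of `Q` does not vanish at `z` (so `V_Q` is
smooth at `z`), and `z` is critical in the direction `r`, that is
`[z_1 ∂Q / ∂z_1 : … : z_d ∂Q / ∂z_d] = r` in `ℂP^(d-1)`. -/
def IsSmoothCritical (Q : Laurent d) (z : Fin d → ℂ) (r : Projectivization ℂ (Fin d → ℂ)) : Prop :=
  (∀ i, z i ≠ 0) ∧ value Q z = 0 ∧ ∃ h : logGrad Q z ≠ 0, r = Projectivization.mk ℂ (logGrad Q z) h

/-- The cone of the normal fan of the polytope `N` which belongs to the face `Γ`: the linear forms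
whose minimum on `N` is attained at all points of `Γ`. -/
def normalCone (N Γ : Set (Fin d → ℝ)) : Set (Fin d → ℝ) :=
  {w | ∀ a ∈ Γ, ∀ b ∈ N, ∑ i, w i * a i ≤ ∑ i, w i * b i}

/-- The lattice points of the dual of the cone of `Γ`. The affine chart `U_Γ` of the toric variety
`X` of `N` is the spectrum of the semigroup algebra of this semigroup; its points are the
homomorphisms from this semigroup to the multiplicative monoid `ℂ`. -/
def chart (N Γ : Set (Fin d → ℝ)) : AddSubmonoid (Fin d → ℤ) where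
  carrier := {m | ∀ w ∈ normalCone N Γ, 0 ≤ ∑ i, w i * m i}
  zero_mem' := by intro w _; simp
  add_mem' := by
    intro a b ha hb w hw
    have h1 := ha w hw
    have h2 := hb w hw
    simp only [Pi.add_apply, Int.cast_add, mul_add, Finset.sum_add_distrib]
    linarith

/-- A point of the torus orbit `O_Γ` of the toric variety of `N`: a point `φ` of the affine chart
`U_Γ` at which exactly those monomials do not vanish which are invertible on `U_Γ`. -/
structure OrbitPoint (N Γ : Set (Fin d → ℝ)) where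
  /-- the point, as a homomorphism -/
  φ : Multiplicative (chart N Γ) →* ℂ
  /-- it lies on `O_Γ` -/
  mem_orbit : ∀ m : chart N Γ, φ (Multiplicative.ofAdd m) ≠ 0 ↔ -(m : Fin d → ℤ) ∈ chart N Γ

/-- The sequence `z` of points of the torus converges to the point `x` of the toric variety. -/
def ConvergesTo {N Γ : Set (Fin d → ℝ)} (z : ℕ → Fin d → ℂ) (x : OrbitPoint N Γ) : Prop :=
  ∀ m : chart N Γ, Tendsto (fun j => mono (z j) m) atTop (𝓝 (x.φ (Multiplicative.ofAdd m)))

/-- The direction `r` is parallel to the face `Γ`: it lies in the complex linear span of the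
differences of points of `Γ`. -/
def IsParallel (r : Projectivization ℂ (Fin d → ℂ)) (Γ : Set (Fin d → ℝ)) : Prop :=
  r.rep ∈ Submodule.span ℂ {v : Fin d → ℂ | ∃ a ∈ Γ, ∃ b ∈ Γ, ∀ i, v i = ((a i - b i : ℝ) : ℂ)}

/-! ### The example -/

/-- the first index -/
def i0 (hd : 3 ≤ d) : Fin d := ⟨0, by omega⟩

/-- the last index -/
def iL (hd : 3 ≤ d) : Fin d := ⟨d - 1, by omega⟩

theorem i0_ne_iL (hd : 3 ≤ d) : i0 hd ≠ iL hd := by
  intro h
  have := congrArg Fin.val h
  simp only [i0, iL] at this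
  omega

/-- the lattice vector `k e_i` -/
def ev (k : ℤ) (i : Fin d) : Fin d → ℤ := Pi.single i k

/-- The Laurent polynomial `(z_0 - 1)^2 + z_1 + … + z_{d-1}`. -/
noncomputable def QQ (hd : 3 ≤ d) : Laurent d :=
  Finsupp.single (ev 2 (i0 hd)) 1 + Finsupp.single (ev 1 (i0 hd)) (-2) + Finsupp.single 0 1 +
    ∑ i ∈ Finset.univ.erase (i0 hd), Finsupp.single (ev 1 i) 1

theorem value_add (P Q : Laurent d) (z : Fin d → ℂ) : value (P + Q) z = value P z + value Q z :=
  Finsupp.sum_add_index' (by intro a; simp) (by intro a b c; ring)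

theorem value_single (a : Fin d → ℤ) (c : ℂ) (z : Fin d → ℂ) :
    value (Finsupp.single a c) z = c * mono z a :=
  Finsupp.sum_single_index (by simp)

theorem value_sum (s : Finset (Fin d)) (f : Fin d → Laurent d) (z : Fin d → ℂ) :
    value (∑ i ∈ s, f i) z = ∑ i ∈ s, value (f i) z := by
  classical
  induction s using Finset.induction_on with
  | empty => simp [value]
  | insert a s ha ih => rw [Finset.sum_insert ha, Finset.sum_insert ha, value_add, ih]

theorem mono_zero (z : Fin d → ℂ) : mono z 0 = 1 := by simp [mono]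

theorem mono_ev (z : Fin d → ℂ) (k : ℤ) (i : Fin d) : mono z (ev k i) = z i ^ k := by
  rw [mono, Finset.prod_eq_single i]
  · simp [ev]
  · intro j _ hj
    simp [ev, Pi.single_eq_of_ne hj]
  · simp

theorem value_QQ (hd : 3 ≤ d) (z : Fin d → ℂ) :
    value (QQ hd) z = (z (i0 hd) - 1) ^ 2 + ∑ i ∈ Finset.univ.erase (i0 hd), z i := by
  rw [QQ, value_add, value_add, value_add, value_single, value_single, value_single, value_sum]
  simp only [value_single, mono_ev, mono_zero, zpow_one, one_mul]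
  have : z (i0 hd) ^ (2 : ℤ) = z (i0 hd) ^ 2 := by norm_cast
  rw [this]
  ring

theorem logGrad_QQ_zero (hd : 3 ≤ d) (z : Fin d → ℂ) :
    logGrad (QQ hd) z (i0 hd) = z (i0 hd) * (2 * (z (i0 hd) - 1)) := by
  have h : (fun t => value (QQ hd) (Function.update z (i0 hd) t)) =
      fun t => (t - 1) ^ 2 + ∑ i ∈ Finset.univ.erase (i0 hd), z i := by
    funext t
    rw [value_QQ, Function.update_self]
    congr 1
    refine Finset.sum_congr rfl fun i hi => ?_
    rw [Function.update_of_ne (Finset.ne_of_mem_erase hi)]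
  rw [logGrad, h]
  congr 1
  rw [deriv_add_const, deriv_fun_pow (by fun_prop)]
  simp

theorem logGrad_QQ_of_ne (hd : 3 ≤ d) (z : Fin d → ℂ) (k : Fin d) (hk : k ≠ i0 hd) :
    logGrad (QQ hd) z k = z k := by
  have h : (fun t => value (QQ hd) (Function.update z k t)) =
      fun t => t + ((z (i0 hd) - 1) ^ 2 + ∑ i ∈ (Finset.univ.erase (i0 hd)).erase k, z i) := by
    funext t
    rw [value_QQ, Function.update_of_ne hk.symm,
      ← Finset.add_sum_erase (Finset.univ.erase (i0 hd)) _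
        (Finset.mem_erase.2 ⟨hk, Finset.mem_univ k⟩), Function.update_self]
    have : ∑ i ∈ (Finset.univ.erase (i0 hd)).erase k, Function.update z k t i =
        ∑ i ∈ (Finset.univ.erase (i0 hd)).erase k, z i := by
      refine Finset.sum_congr rfl fun i hi => ?_
      rw [Function.update_of_ne (Finset.ne_of_mem_erase hi)]
    rw [this]
    ring
  rw [logGrad, h]
  simp

/-- the coordinates of the direction: `0, 1, …, 1, - (d - 2)` -/
noncomputable def cc (hd : 3 ≤ d) : Fin d → ℂ := fun i =>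
  if i = i0 hd then 0 else if i = iL hd then -((d : ℂ) - 2) else 1

/-- the points `(1, s, …, s, - (d - 2) s)` -/
noncomputable def pt (hd : 3 ≤ d) (s : ℂ) : Fin d → ℂ := fun i =>
  if i = i0 hd then 1 else cc hd i * s

theorem cc_ne (hd : 3 ≤ d) (i : Fin d) (hi : i ≠ i0 hd) : cc hd i ≠ 0 := by
  rw [cc, if_neg hi]
  split_ifs
  · rw [neg_ne_zero, sub_ne_zero]
    intro h
    have h2 : d = 2 := by exact_mod_cast h
    omega
  · exact one_ne_zero

theorem sum_cc (hd : 3 ≤ d) : ∑ i ∈ Finset.univ.erase (i0 hd), cc hd i = 0 := by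
  have hm : iL hd ∈ Finset.univ.erase (i0 hd) :=
    Finset.mem_erase.2 ⟨(i0_ne_iL hd).symm, Finset.mem_univ _⟩
  rw [← Finset.add_sum_erase _ _ hm]
  have h1 : cc hd (iL hd) = -((d : ℂ) - 2) := by
    rw [cc, if_neg (i0_ne_iL hd).symm, if_pos rfl]
  have h2 : ∑ i ∈ (Finset.univ.erase (i0 hd)).erase (iL hd), cc hd i =
      ∑ i ∈ (Finset.univ.erase (i0 hd)).erase (iL hd), (1 : ℂ) := by
    refine Finset.sum_congr rfl fun i hi => ?_
    rw [cc, if_neg (Finset.ne_of_mem_erase (Finset.mem_of_mem_erase hi)),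
      if_neg (Finset.ne_of_mem_erase hi)]
  rw [h1, h2, Finset.sum_const, Finset.card_erase_of_mem hm,
    Finset.card_erase_of_mem (Finset.mem_univ _), Finset.card_univ, Fintype.card_fin, nsmul_eq_mul]
  have h3 : ((d - 1 - 1 : ℕ) : ℂ) = (d : ℂ) - 2 := by
    rw [Nat.sub_sub, Nat.cast_sub (by omega)]
    norm_num
  rw [h3]
  ring

theorem pt_i0 (hd : 3 ≤ d) (s : ℂ) : pt hd s (i0 hd) = 1 := if_pos rfl

theorem pt_of_ne (hd : 3 ≤ d) (s : ℂ) (i : Fin d) (hi : i ≠ i0 hd) : pt hd s i = cc hd i * s :=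
  if_neg hi

theorem pt_ne (hd : 3 ≤ d) (s : ℂ) (hs : s ≠ 0) (i : Fin d) : pt hd s i ≠ 0 := by
  by_cases hi : i = i0 hd
  · rw [hi, pt_i0]; exact one_ne_zero
  · rw [pt_of_ne hd s i hi]; exact mul_ne_zero (cc_ne hd i hi) hs

theorem value_pt (hd : 3 ≤ d) (s : ℂ) : value (QQ hd) (pt hd s) = 0 := by
  rw [value_QQ, pt_i0, sub_self, zero_pow two_ne_zero, zero_add]
  have : ∑ i ∈ Finset.univ.erase (i0 hd), pt hd s i =
      (∑ i ∈ Finset.univ.erase (i0 hd), cc hd i) * s := by
    rw [Finset.sum_mul]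
    exact Finset.sum_congr rfl fun i hi => pt_of_ne hd s i (Finset.ne_of_mem_erase hi)
  rw [this, sum_cc, zero_mul]

theorem logGrad_pt (hd : 3 ≤ d) (s : ℂ) : logGrad (QQ hd) (pt hd s) = s • cc hd := by
  funext i
  by_cases hi : i = i0 hd
  · subst hi
    rw [logGrad_QQ_zero, pt_i0]
    simp [cc]
  · rw [logGrad_QQ_of_ne hd _ i hi, pt_of_ne hd s i hi, Pi.smul_apply, smul_eq_mul, mul_comm]

theorem cc_ne_zero (hd : 3 ≤ d) : cc hd ≠ 0 := fun h =>
  cc_ne hd (iL hd) (i0_ne_iL hd).symm (congrFun h _)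

/-- the direction `[0 : 1 : … : 1 : - (d - 2)]` -/
noncomputable def rr (hd : 3 ≤ d) : Projectivization ℂ (Fin d → ℂ) := Projectivization.mk ℂ (cc hd) (cc_ne_zero hd)

theorem critical_pt (hd : 3 ≤ d) (s : ℂ) (hs : s ≠ 0) :
    IsSmoothCritical (QQ hd) (pt hd s) (rr hd) := by
  refine ⟨pt_ne hd s hs, value_pt hd s, ?_, ?_⟩
  · rw [logGrad_pt]
    exact smul_ne_zero hs (cc_ne_zero hd)
  · rw [rr, Projectivization.mk_eq_mk_iff']
    refine ⟨s⁻¹, ?_⟩
    rw [logGrad_pt, smul_smul, inv_mul_cancel₀ hs, one_smul]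

/-! ### The Newton polytope -/

/-- the real vector of an exponent -/
def toR (a : Fin d → ℤ) : Fin d → ℝ := fun i => a i

theorem QQ_support (hd : 3 ≤ d) (a : Fin d → ℤ) (ha : QQ hd a ≠ 0) :
    a = ev 2 (i0 hd) ∨ a = ev 1 (i0 hd) ∨ a = 0 ∨ ∃ i, i ≠ i0 hd ∧ a = ev 1 i := by
  by_contra hc
  push Not at hc
  obtain ⟨h1, h2, h3, h4⟩ := hc
  apply ha
  rw [QQ, Finsupp.add_apply, Finsupp.add_apply, Finsupp.add_apply, Finsupp.finsetSum_apply,
    Finsupp.single_eq_of_ne h1, Finsupp.single_eq_of_ne h2, Finsupp.single_eq_of_ne h3]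
  simp only [add_zero, zero_add]
  refine Finset.sum_eq_zero fun i hi => Finsupp.single_eq_of_ne (h4 i (Finset.ne_of_mem_erase hi))

theorem ev_inj {k l : ℤ} {i j : Fin d} (hk : k ≠ 0) (h : ev k i = ev l j) : i = j ∧ k = l := by
  have h1 := congrFun h i
  by_cases hij : i = j
  · subst hij
    simp only [ev, Pi.single_eq_same] at h1
    exact ⟨rfl, h1⟩
  · simp only [ev, Pi.single_eq_same, Pi.single_eq_of_ne hij] at h1
    exact absurd h1 hk

theorem ev_ne_zero {k : ℤ} {i : Fin d} (hk : k ≠ 0) : ev k i ≠ 0 := by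
  intro h
  have h1 := congrFun h i
  simp only [ev, Pi.single_eq_same, Pi.zero_apply] at h1
  exact hk h1

theorem QQ_two (hd : 3 ≤ d) : QQ hd (ev 2 (i0 hd)) ≠ 0 := by
  have h1 : ev 2 (i0 hd) ≠ ev 1 (i0 hd) := fun h => by
    have := (ev_inj (by norm_num) h).2
    norm_num at this
  have h2 : ev 2 (i0 hd) ≠ (0 : Fin d → ℤ) := ev_ne_zero (by norm_num)
  rw [QQ, Finsupp.add_apply, Finsupp.add_apply, Finsupp.add_apply, Finsupp.finsetSum_apply,
    Finsupp.single_eq_same, Finsupp.single_eq_of_ne h1, Finsupp.single_eq_of_ne h2,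
    Finset.sum_eq_zero (fun i _ => Finsupp.single_eq_of_ne fun h => by
      have := (ev_inj (by norm_num) h).2
      norm_num at this)]
  norm_num

theorem QQ_zero (hd : 3 ≤ d) : QQ hd 0 ≠ 0 := by
  rw [QQ, Finsupp.add_apply, Finsupp.add_apply, Finsupp.add_apply, Finsupp.finsetSum_apply,
    Finsupp.single_eq_same, Finsupp.single_eq_of_ne (ev_ne_zero (by norm_num)).symm,
    Finsupp.single_eq_of_ne (ev_ne_zero (by norm_num)).symm,
    Finset.sum_eq_zero (fun i _ => Finsupp.single_eq_of_ne (ev_ne_zero (by norm_num)).symm)]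
  norm_num

theorem QQ_one (hd : 3 ≤ d) (k : Fin d) (hk : k ≠ i0 hd) : QQ hd (ev 1 k) ≠ 0 := by
  have h1 : ev 1 k ≠ ev 2 (i0 hd) := fun h => hk (ev_inj (by norm_num) h).1
  have h2 : ev 1 k ≠ ev 1 (i0 hd) := fun h => hk (ev_inj (by norm_num) h).1
  have h3 : ev 1 k ≠ (0 : Fin d → ℤ) := ev_ne_zero (by norm_num)
  rw [QQ, Finsupp.add_apply, Finsupp.add_apply, Finsupp.add_apply, Finsupp.finsetSum_apply,
    Finsupp.single_eq_of_ne h1, Finsupp.single_eq_of_ne h2, Finsupp.single_eq_of_ne h3,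
    Finset.sum_eq_single_of_mem k (Finset.mem_erase.2 ⟨hk, Finset.mem_univ k⟩)
      (fun i _ hi => Finsupp.single_eq_of_ne fun h => hi (ev_inj (by norm_num) h).1.symm),
    Finsupp.single_eq_same]
  norm_num

theorem mem_newton (Q : Laurent d) (a : Fin d → ℤ) (ha : Q a ≠ 0) : toR a ∈ newton Q :=
  subset_convexHull ℝ _ ⟨a, ha, fun _ => rfl⟩

theorem affineSpan_newton (hd : 3 ≤ d) : affineSpan ℝ (newton (QQ hd)) = ⊤ := by
  have h0 : toR (0 : Fin d → ℤ) ∈ affineSpan ℝ (newton (QQ hd)) :=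
    subset_affineSpan ℝ _ (mem_newton _ _ (QQ_zero hd))
  have hz : toR (0 : Fin d → ℤ) = 0 := by funext i; simp [toR]
  rw [hz] at h0
  have hdir : ∀ x ∈ affineSpan ℝ (newton (QQ hd)), x ∈ (affineSpan ℝ (newton (QQ hd))).direction := by
    intro x hx
    have := AffineSubspace.vsub_mem_direction hx h0
    simpa using this
  have hbasis : ∀ k : Fin d, (Pi.single k 1 : Fin d → ℝ) ∈
      (affineSpan ℝ (newton (QQ hd))).direction := by
    intro k
    by_cases hk : k = i0 hd
    · have h2 := hdir _ (subset_affineSpan ℝ _ (mem_newton _ _ (QQ_two hd)))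
      have h3 := Submodule.smul_mem _ (1 / 2 : ℝ) h2
      convert h3 using 1
      subst hk
      funext i
      by_cases hi : i = i0 hd
      · subst hi
        simp [toR, ev]
      · simp [toR, ev, Pi.single_eq_of_ne hi]
    · have h2 := hdir _ (subset_affineSpan ℝ _ (mem_newton _ _ (QQ_one hd k hk)))
      convert h2 using 1
      funext i
      by_cases hi : i = k
      · subst hi
        simp [toR, ev]
      · simp [toR, ev, Pi.single_eq_of_ne hi]
  rw [← AffineSubspace.direction_eq_top_iff_of_nonempty ⟨_, h0⟩, eq_top_iff]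
  intro x _
  have : x = ∑ k, x k • (Pi.single k 1 : Fin d → ℝ) := by
    funext i
    simp [Finset.sum_apply, Pi.single_apply]
  rw [this]
  exact Submodule.sum_mem _ fun k _ => Submodule.smul_mem _ _ (hbasis k)

/-- the linear form `x ↦ x_1 + … + x_{d-1}` -/
noncomputable def ell (hd : 3 ≤ d) : (Fin d → ℝ) →L[ℝ] ℝ :=
  ∑ i ∈ Finset.univ.erase (i0 hd), ContinuousLinearMap.proj i

theorem ell_apply (hd : 3 ≤ d) (x : Fin d → ℝ) :
    ell hd x = ∑ i ∈ Finset.univ.erase (i0 hd), x i := by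
  simp [ell]

/-- all coordinates of the points of the Newton polytope are nonnegative -/
theorem nonneg_of_mem (hd : 3 ≤ d) {x : Fin d → ℝ} (hx : x ∈ newton (QQ hd)) (i : Fin d) :
    0 ≤ x i := by
  have hconv : Convex ℝ {x : Fin d → ℝ | 0 ≤ x i} := by
    intro a ha b hb s t hs ht _
    simp only [Set.mem_ofPred_eq, Pi.add_apply, Pi.smul_apply, smul_eq_mul] at *
    positivity
  refine convexHull_min ?_ hconv hx
  rintro y ⟨a, ha, hy⟩
  rw [Set.mem_ofPred_eq, hy i]
  rcases QQ_support hd a ha with h | h | h | ⟨k, -, h⟩ <;> subst h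
  · by_cases hi : i = i0 hd
    · subst hi; simp [ev]
    · simp [ev, Pi.single_eq_of_ne hi]
  · by_cases hi : i = i0 hd
    · subst hi; simp [ev]
    · simp [ev, Pi.single_eq_of_ne hi]
  · simp
  · by_cases hi : i = k
    · subst hi; simp [ev]
    · simp [ev, Pi.single_eq_of_ne hi]

/-- the face: the points of the Newton polytope with `x_1 = … = x_{d-1} = 0` -/
def GG (hd : 3 ≤ d) : Set (Fin d → ℝ) := {x ∈ newton (QQ hd) | ∀ i, i ≠ i0 hd → x i = 0}

theorem zero_mem_GG (hd : 3 ≤ d) : (0 : Fin d → ℝ) ∈ GG hd := by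
  have h := mem_newton _ _ (QQ_zero hd)
  have hz : toR (0 : Fin d → ℤ) = 0 := by funext i; simp [toR]
  rw [hz] at h
  exact ⟨h, fun _ _ => rfl⟩

theorem two_mem_GG (hd : 3 ≤ d) : toR (ev 2 (i0 hd)) ∈ GG hd := by
  refine ⟨mem_newton _ _ (QQ_two hd), fun i hi => ?_⟩
  simp [toR, ev, Pi.single_eq_of_ne hi]

theorem isExposed_GG (hd : 3 ≤ d) : IsExposed ℝ (newton (QQ hd)) (GG hd) := by
  intro _
  refine ⟨-ell hd, ?_⟩
  ext x
  constructor
  · rintro ⟨hx, hx0⟩
    refine ⟨hx, fun y hy => ?_⟩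
    rw [neg_apply, neg_apply, ell_apply, ell_apply,
      neg_le_neg_iff, Finset.sum_eq_zero fun i hi => hx0 i (Finset.ne_of_mem_erase hi)]
    exact Finset.sum_nonneg fun i _ => nonneg_of_mem hd hy i
  · rintro ⟨hx, hx1⟩
    refine ⟨hx, ?_⟩
    have h := hx1 0 (zero_mem_GG hd).1
    rw [map_zero, neg_apply, ell_apply, Left.nonneg_neg_iff] at h
    have h2 : ∑ i ∈ Finset.univ.erase (i0 hd), x i = 0 :=
      le_antisymm h (Finset.sum_nonneg fun i _ => nonneg_of_mem hd hx i)
    intro i hi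
    exact (Finset.sum_eq_zero_iff_of_nonneg fun i _ => nonneg_of_mem hd hx i).1 h2 i
      (Finset.mem_erase.2 ⟨hi, Finset.mem_univ i⟩)

/-! ### The orbit point -/

theorem single_mem_normalCone (hd : 3 ≤ d) (k : Fin d) (hk : k ≠ i0 hd) :
    (Pi.single k 1 : Fin d → ℝ) ∈ normalCone (newton (QQ hd)) (GG hd) := by
  intro a ha b hb
  have h : ∀ x : Fin d → ℝ, ∑ i, (Pi.single k 1 : Fin d → ℝ) i * x i = x k := by
    intro x
    rw [Finset.sum_eq_single k]
    · simp
    · intro j _ hj; simp [Pi.single_eq_of_ne hj]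
    · simp
  rw [h, h, ha.2 k hk]
  exact nonneg_of_mem hd hb k

theorem normalCone_zero (hd : 3 ≤ d) {w : Fin d → ℝ}
    (hw : w ∈ normalCone (newton (QQ hd)) (GG hd)) : w (i0 hd) = 0 := by
  have h : ∑ i, w i * toR (ev 2 (i0 hd)) i = w (i0 hd) * 2 := by
    rw [Finset.sum_eq_single (i0 hd)]
    · simp [toR, ev]
    · intro j _ hj; simp [toR, ev, Pi.single_eq_of_ne hj]
    · simp
  have h1 := hw _ (zero_mem_GG hd) _ (two_mem_GG hd).1
  have h2 := hw _ (two_mem_GG hd) _ (zero_mem_GG hd).1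
  rw [h] at h1 h2
  simp only [Pi.zero_apply, mul_zero, Finset.sum_const_zero] at h1 h2
  linarith

theorem chart_nonneg (hd : 3 ≤ d) {m : Fin d → ℤ} (hm : m ∈ chart (newton (QQ hd)) (GG hd))
    (k : Fin d) (hk : k ≠ i0 hd) : 0 ≤ m k := by
  have h := hm _ (single_mem_normalCone hd k hk)
  have h2 : ∑ i, (Pi.single k 1 : Fin d → ℝ) i * (m i : ℝ) = m k := by
    rw [Finset.sum_eq_single k]
    · simp
    · intro j _ hj; simp [Pi.single_eq_of_ne hj]
    · simp
  rw [h2] at h
  exact_mod_cast h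

theorem mem_chart_of_zero (hd : 3 ≤ d) {m : Fin d → ℤ} (hm : ∀ k, k ≠ i0 hd → m k = 0) :
    m ∈ chart (newton (QQ hd)) (GG hd) := by
  intro w hw
  refine le_of_eq (Finset.sum_eq_zero fun i _ => ?_).symm
  by_cases hi : i = i0 hd
  · rw [hi, normalCone_zero hd hw, zero_mul]
  · rw [hm i hi, Int.cast_zero, mul_zero]

theorem neg_mem_iff (hd : 3 ≤ d) {m : Fin d → ℤ} (hm : m ∈ chart (newton (QQ hd)) (GG hd)) :
    -m ∈ chart (newton (QQ hd)) (GG hd) ↔ ∀ k, k ≠ i0 hd → m k = 0 := by
  constructor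
  · intro h k hk
    have h1 := chart_nonneg hd h k hk
    have h2 := chart_nonneg hd hm k hk
    rw [Pi.neg_apply] at h1
    omega
  · intro h
    refine mem_chart_of_zero hd fun k hk => ?_
    rw [Pi.neg_apply, h k hk, neg_zero]

open Classical in
/-- the limit point -/
noncomputable def xx (hd : 3 ≤ d) : OrbitPoint (newton (QQ hd)) (GG hd) where
  φ :=
    { toFun := fun m => if ∀ k, k ≠ i0 hd → (m.toAdd : Fin d → ℤ) k = 0 then 1 else 0
      map_one' := by
        rw [if_pos]
        intro k _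
        rfl
      map_mul' := by
        intro m n
        have h : (∀ k, k ≠ i0 hd → ((m * n).toAdd : Fin d → ℤ) k = 0) ↔
            (∀ k, k ≠ i0 hd → (m.toAdd : Fin d → ℤ) k = 0) ∧
            (∀ k, k ≠ i0 hd → (n.toAdd : Fin d → ℤ) k = 0) := by
          have hadd : ∀ k, ((m * n).toAdd : Fin d → ℤ) k =
            (m.toAdd : Fin d → ℤ) k + (n.toAdd : Fin d → ℤ) k := fun k => rfl
          constructor
          · intro h
            refine ⟨fun k hk => ?_, fun k hk => ?_⟩ <;>
            · have h1 := h k hk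
              rw [hadd] at h1
              have h2 := chart_nonneg hd m.toAdd.2 k hk
              have h3 := chart_nonneg hd n.toAdd.2 k hk
              omega
          · rintro ⟨h1, h2⟩ k hk
            rw [hadd, h1 k hk, h2 k hk, add_zero]
        by_cases h1 : ∀ k, k ≠ i0 hd → (m.toAdd : Fin d → ℤ) k = 0
        · by_cases h2 : ∀ k, k ≠ i0 hd → (n.toAdd : Fin d → ℤ) k = 0
          · rw [if_pos (h.2 ⟨h1, h2⟩), if_pos h1, if_pos h2, one_mul]
          · rw [if_neg (fun h3 => h2 (h.1 h3).2), if_neg h2, mul_zero]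
        · rw [if_neg (fun h3 => h1 (h.1 h3).1), if_neg h1, zero_mul] }
  mem_orbit := by
    intro m
    rw [neg_mem_iff hd m.2]
    change (if ∀ k, k ≠ i0 hd → (m : Fin d → ℤ) k = 0 then (1 : ℂ) else 0) ≠ 0 ↔ _
    split_ifs with h
    · exact ⟨fun _ => h, fun _ => one_ne_zero⟩
    · exact ⟨fun h1 => absurd rfl h1, fun h1 => absurd h1 h⟩

theorem xx_apply (hd : 3 ≤ d) (m : chart (newton (QQ hd)) (GG hd)) [Decidable (∀ k, k ≠ i0 hd → (m : Fin d → ℤ) k = 0)] :
    (xx hd).φ (Multiplicative.ofAdd m) =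
      if ∀ k, k ≠ i0 hd → (m : Fin d → ℤ) k = 0 then 1 else 0 := by
  change (ite _ _ _) = _
  congr

/-- the sequence of points -/
noncomputable def zz (hd : 3 ≤ d) (j : ℕ) : Fin d → ℂ := pt hd (1 / ((j : ℂ) + 1))

theorem converges (hd : 3 ≤ d) : ConvergesTo (zz hd) (xx hd) := by
  classical
  intro m
  have hlim : Tendsto (fun j : ℕ => 1 / ((j : ℂ) + 1)) atTop (𝓝 0) :=
    tendsto_one_div_add_atTop_nhds_zero_nat
  rw [xx_apply]
  -- each factor
  have hfac : ∀ i : Fin d, Tendsto (fun j => zz hd j i ^ (m : Fin d → ℤ) i) atTop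
      (𝓝 (if i = i0 hd ∨ (m : Fin d → ℤ) i = 0 then 1 else 0)) := by
    intro i
    by_cases hi : i = i0 hd
    · rw [if_pos (Or.inl hi)]
      subst hi
      have : (fun j => zz hd j (i0 hd) ^ (m : Fin d → ℤ) (i0 hd)) = fun _ => 1 := by
        funext j
        rw [zz, pt_i0, one_zpow]
      rw [this]
      exact tendsto_const_nhds
    · by_cases hm : (m : Fin d → ℤ) i = 0
      · rw [if_pos (Or.inr hm), hm]
        simp only [zpow_zero]
        exact tendsto_const_nhds
      · rw [if_neg (by tauto)]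
        have hpos : 0 < (m : Fin d → ℤ) i :=
          lt_of_le_of_ne (chart_nonneg hd m.2 i hi) (Ne.symm hm)
        obtain ⟨n, hn⟩ := Int.eq_ofNat_of_zero_le hpos.le
        have hn0 : n ≠ 0 := by rintro rfl; exact hm hn
        have h1 : (fun j => zz hd j i ^ (m : Fin d → ℤ) i) =
            fun j : ℕ => (cc hd i * (1 / ((j : ℂ) + 1))) ^ n := by
          funext j
          rw [zz, pt_of_ne hd _ i hi, hn]
          exact zpow_natCast _ _
        rw [h1]
        have h2 := (hlim.const_mul (cc hd i)).pow n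
        rwa [mul_zero, zero_pow hn0] at h2
  have hprod := tendsto_finsetProd Finset.univ fun i _ => hfac i
  have hval : ∏ i : Fin d, (if i = i0 hd ∨ (m : Fin d → ℤ) i = 0 then (1 : ℂ) else 0) =
      if ∀ k, k ≠ i0 hd → (m : Fin d → ℤ) k = 0 then 1 else 0 := by
    by_cases h : ∀ k, k ≠ i0 hd → (m : Fin d → ℤ) k = 0
    · rw [if_pos h]
      refine Finset.prod_eq_one fun i _ => ?_
      rw [if_pos]
      by_cases hi : i = i0 hd
      · exact Or.inl hi
      · exact Or.inr (h i hi)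
    · rw [if_neg h]
      push Not at h
      obtain ⟨k, hk, hk2⟩ := h
      refine Finset.prod_eq_zero (Finset.mem_univ k) ?_
      rw [if_neg]
      rintro (h | h)
      · exact hk h
      · exact hk2 h
  rw [hval] at hprod
  exact hprod

theorem not_parallel (hd : 3 ≤ d) : ¬ IsParallel (rr hd) (GG hd) := by
  intro h
  let f : (Fin d → ℂ) →ₗ[ℂ] ℂ := LinearMap.proj (iL hd)
  have hspan : Submodule.span ℂ
      {v : Fin d → ℂ | ∃ a ∈ GG hd, ∃ b ∈ GG hd, ∀ i, v i = ((a i - b i : ℝ) : ℂ)} ≤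
      LinearMap.ker f := by
    rw [Submodule.span_le]
    rintro v ⟨a, ha, b, hb, hv⟩
    change v (iL hd) = 0
    rw [hv, ha.2 _ (i0_ne_iL hd).symm, hb.2 _ (i0_ne_iL hd).symm]
    simp
  have h1 : (rr hd).rep (iL hd) = 0 := hspan h
  obtain ⟨c, hc⟩ := (Projectivization.mk_eq_mk_iff ℂ (rr hd).rep (cc hd)
    (Projectivization.rep_nonzero _) (cc_ne_zero hd)).1 (Projectivization.mk_rep _)
  rw [← hc] at h1
  change (c : ℂ) * cc hd (iL hd) = 0 at h1
  exact mul_ne_zero c.ne_zero (cc_ne hd _ (i0_ne_iL hd).symm) h1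

/-- The answer to the question is negative in every dimension `d ≥ 3`: there are a Laurent polynomial
`Q` with `d`-dimensional Newton polytope, a nonempty face `Γ` of `N(Q)`, a sequence of points of
`V_Q`, at which `V_Q` is smooth, all critical in the same direction `r`, which converges in the toric
variety of `N(Q)` to a point `x` of the orbit `O_Γ`, such that `r` is not parallel to `Γ`. -/
theorem result (d : ℕ) (hd : 3 ≤ d) :
    ∃ (Q : Laurent d) (Γ : Set (Fin d → ℝ)) (z : ℕ → Fin d → ℂ) (r : Projectivization ℂ (Fin d → ℂ))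
      (x : OrbitPoint (newton Q) Γ),
      affineSpan ℝ (newton Q) = ⊤ ∧ Γ.Nonempty ∧ IsExposed ℝ (newton Q) Γ ∧
      (∀ j, IsSmoothCritical Q (z j) r) ∧ ConvergesTo z x ∧ ¬ IsParallel r Γ :=
  ⟨QQ hd, GG hd, zz hd, rr hd, xx hd, affineSpan_newton hd, ⟨0, zero_mem_GG hd⟩, isExposed_GG hd,
    fun j => critical_pt hd _ (by
      have : ((j : ℂ) + 1) ≠ 0 := by exact_mod_cast Nat.succ_ne_zero j
      exact one_div_ne_zero this), converges hd, not_parallel hd⟩

end Pool.Agent.Results.MP_759130_ag.NotParallel
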